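import Mathlib
import Pool.Agent.J4H39.Z7

set_option autoImplicit false

/-!
Project SC: the number of different positions of many coalescing random walks.

`cw G n z` = mean of `G` after `n` steps of coalescing walks (steps 0, 1) started at `z` (file Z1);
`iw G n z` = mean of `G` after `n` steps of independent walks; `U (2 n) (2 d)` = probability that two of these walks
started at distance `d` have not met after `n` steps (file S1: `U_two`, Z1, is its recursion; `U q d ≤ d U q 1`: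
`U_le_mul`; `U (2 l + 1) 1 = u (l + 1)`: `U_one`; `u k ^ 2 ≤ 1 / (π k)`: `u_sq_le`; `U_antitone`; `U_monotone`: L2).
-/

namespace Pool.Agent.J4H39.SC

open Finset Filter Real

/-- the number of different positions -/
def ncl {ι : Type} [Fintype ι] (z : ι → ℤ) : ℕ := (univ.image z).card

/-- (NC) negative correlation: four walkers `z i < z j ≤ z l < z m`. -/
def S_NC : Prop := ∀ (K n : ℕ) (z : Fin K → ℤ) (i j l m : Fin K), z i < z j → z j ≤ z l → z l < z m →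
  cw (fun y => id1 (y i ≠ y j) * id1 (y l ≠ y m)) n z ≤ U (2 * n) (2 * (z j - z i)) * U (2 * n) (2 * (z m - z l))

/-- (ONE) two walkers. -/
def S_ONE : Prop := ∀ (K n : ℕ) (z : Fin K → ℤ) (i j : Fin K),
  cw (fun y => id1 (y i ≠ y j)) n z = U (2 * n) (2 * (z j - z i))

/-- (UP) upper tail of the number of positions (NC and ONE may be taken as hypotheses). -/
def S_UP : Prop := ∀ (K n : ℕ) (z : Fin K → ℤ) (a b : ℤ) (r : ℝ), 1 ≤ n → 0 < r → a ≤ b →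
  (∀ i, a ≤ z i ∧ z i ≤ b) →
  cw (fun y => id1 (1 + 2 * ((b : ℝ) - a) / √ (π * n) + r ≤ (ncl y : ℝ))) n z ≤ 2 * ((b : ℝ) - a) / √ (π * n) / r ^ 2

/-- (LO) lower tail (NC and ONE may be taken as hypotheses). -/
def S_LO : Prop := ∀ (K n J : ℕ) (z : Fin K → ℤ) (c : Fin (J + 1) → Fin K) (E r : ℝ), StrictMono (fun j => z (c j)) →
  0 < r → E = ∑ j : Fin J, U (2 * n) (2 * (z (c j.succ) - z (c j.castSucc))) →
  cw (fun y => id1 ((ncl y : ℝ) ≤ 1 + E - r)) n z ≤ E / r ^ 2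

/-- (TAIL) Hoeffding and union bound. -/
def S_TAIL : Prop := ∀ (K s : ℕ) (y : ℝ), 0 ≤ y →
  iw (fun z : Fin K → ℤ => id1 (∃ i, y < |(z i : ℝ) - s / 2|)) s (fun _ => 0) ≤ 2 * K * Real.exp (-2 * y ^ 2 / s)

/-- (HIT) one of many independent walkers is in a given interval. -/
def S_HIT : Prop := ∀ α β : ℝ, α < β → ∃ s₀ : ℕ, ∀ s ≥ s₀, ∀ K : ℕ,
  iw (fun z : Fin K → ℤ => id1 (∀ i, ¬ ((s : ℝ) / 2 + α * √ s ≤ z i ∧ (z i : ℝ) < s / 2 + β * √ s))) s (fun _ => 0) ≤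
    Real.exp (-(K * ((β - α) * Real.exp (-2 * max |α| |β| ^ 2) / 4)))

/-- (SA1) if no `m` values contain all but `ε` of the `v h`, then `k` random `v h` seldom have at most `m` different
values. -/
def S_SA1 : Prop := ∀ (H k m : ℕ) (ε : ℝ) (v : Fin H → ℤ), 0 < ε → 1 ≤ H →
  (∀ V : Finset ℤ, V.card ≤ m → ε * H < ((univ.filter fun h => v h ∉ V).card : ℝ)) →
  ε * k * ((univ.filter fun h : Fin k → Fin H => ncl (fun i => v (h i)) ≤ m).card : ℝ) ≤ (m + 1) * (H : ℝ) ^ k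

/-- (SA2) the converse. -/
def S_SA2 : Prop := ∀ (H k m : ℕ) (ε : ℝ) (v : Fin H → ℤ) (V : Finset ℤ), V.card ≤ m →
  ((univ.filter fun h => v h ∉ V).card : ℝ) ≤ ε * H →
  ((univ.filter fun h : Fin k → Fin H => m < ncl (fun i => v (h i))).card : ℝ) ≤ k * ε * (H : ℝ) ^ k

/-- (MUP) wanted as `t_MUP : S_UP → S_TAIL → S_MUP`.  `k` independent walks for `s` steps, then `n` coalescing steps,
`s ≈ ρ n`. Choose `y = √((1 + η') s log k / 2)`, `a = ⌊s/2 - y⌋`, `b = ⌈s/2 + y⌉`, `r = η'' √(log k)`. -/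
def S_MUP : Prop := ∀ ρ η δ : ℝ, 0 < ρ → 0 < η → 0 < δ → ∃ k₀ : ℕ, ∀ k ≥ k₀, ∃ (s₀ : ℕ) (γ : ℝ), 0 < γ ∧
  ∀ s n : ℕ, s₀ ≤ s → |(s : ℝ) - ρ * n| ≤ γ * n →
    iw (cw (fun y : Fin k → ℤ => id1 ((√ (8 * ρ / π) + η) * √ (Real.log k) ≤ (ncl y : ℝ))) n) s (fun _ => 0) ≤ δ

/-- (MLO) wanted as `t_MLO : S_LO → S_HIT → S_MLO`.  With a small `l > 0` (depending on `η`, `ρ`) and
`J ≈ √((1 - η') log k / 2) / l` the intervals `[j l, j l + l ^ 2)`, `|j| ≤ J`, all contain some `(z i - s/2)/√s`; then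
`S_LO` for one walker in each of them, `U_erf` (L2) and `Erf_dn` (J4H26/CC/D). -/
def S_MLO : Prop := ∀ ρ η δ : ℝ, 0 < ρ → 0 < η → 0 < δ → ∃ k₀ : ℕ, ∀ k ≥ k₀, ∃ (s₀ : ℕ) (γ : ℝ), 0 < γ ∧
  ∀ s n : ℕ, s₀ ≤ s → |(s : ℝ) - ρ * n| ≤ γ * n →
    iw (cw (fun y : Fin k → ℤ => id1 ((ncl y : ℝ) ≤ (√ (8 * ρ / π) - η) * √ (Real.log k))) n) s (fun _ => 0) ≤ δ

end Pool.Agent.J4H39.SC
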