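import Pool.Agent.Y282.WD.Full
import Pool.Agent.Y514.WD.Sch
import Pool.Agent.Y811.WD.Back

/-!
Distinct integers lie in distinct Fatou components of `f₀`, except `-2`, `-1`.
-/

set_option autoImplicit false

open Filter Topology Metric Set

namespace Pool.Agent.J4H39.SC

open Pool.Agent.H384R2.Fatou Pool.Agent.H723R2.LSW

/-- `z - p` has a continuous logarithm on `L` -/
def HasLog (L : Set ℂ) (p : ℂ) : Prop := ∃ g : ℂ → ℂ, ContinuousOn g L ∧ ∀ z ∈ L, Complex.exp (g z) = z - p

theorem one_sub_slit {w : ℂ} (hw : ‖w‖ < 1) : 1 - w ∈ Complex.slitPlane := by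
  left
  have := Complex.re_le_norm w
  simp only [Complex.sub_re, Complex.one_re]
  linarith

theorem hasLog_move {L : Set ℂ} {p q : ℂ} (hp : HasLog L p) (h : ∀ z ∈ L, ‖q - p‖ < ‖z - p‖) : HasLog L q := by
  obtain ⟨g, hg, hg1⟩ := hp
  have hne : ∀ z ∈ L, z - p ≠ 0 := by
    intro z hz h0
    have := h z hz
    rw [h0, norm_zero] at this
    exact absurd this (not_lt.2 (norm_nonneg _))
  have hlt : ∀ z ∈ L, ‖(q - p) / (z - p)‖ < 1 := by
    intro z hz
    rw [norm_div, div_lt_one (norm_pos_iff.2 (hne z hz))]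
    exact h z hz
  refine ⟨fun z => g z + Complex.log (1 - (q - p) / (z - p)), ?_, ?_⟩
  · apply hg.add
    apply ContinuousOn.clog
    · apply continuousOn_const.sub
      apply ContinuousOn.div continuousOn_const (continuousOn_id.sub continuousOn_const)
      exact hne
    · intro z hz
      exact one_sub_slit (hlt z hz)
  · intro z hz
    rw [Complex.exp_add, hg1 z hz, Complex.exp_log (Complex.slitPlane_ne_zero (one_sub_slit (hlt z hz)))]
    field_simp [hne z hz]
    ring

theorem hasLog_far {L : Set ℂ} {p : ℂ} (h : ∀ z ∈ L, ‖z‖ < ‖p‖) (hL : L.Nonempty) : HasLog L p := by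
  have hp : p ≠ 0 := by
    obtain ⟨z, hz⟩ := hL
    intro h0
    have := h z hz
    rw [h0, norm_zero] at this
    exact absurd this (not_lt.2 (norm_nonneg _))
  have hlt : ∀ z ∈ L, ‖z / p‖ < 1 := by
    intro z hz
    rw [norm_div, div_lt_one (norm_pos_iff.2 hp)]
    exact h z hz
  refine ⟨fun z => Complex.log (-p) + Complex.log (1 - z / p), ?_, ?_⟩
  · apply continuousOn_const.add
    apply ContinuousOn.clog
    · exact continuousOn_const.sub (continuousOn_id.div_const _)
    · intro z hz
      exact one_sub_slit (hlt z hz)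
  · intro z hz
    rw [Complex.exp_add, Complex.exp_log (neg_ne_zero.2 hp),
      Complex.exp_log (Complex.slitPlane_ne_zero (one_sub_slit (hlt z hz)))]
    field_simp
    ring

/-- in an unbounded component of the complement there is a logarithm -/
theorem hasLog_of_unbounded {L : Set ℂ} (hL : IsCompact L) (hne : L.Nonempty) {x : ℂ} (hx : x ∈ Lᶜ)
    (hub : ¬ Bornology.IsBounded (connectedComponentIn Lᶜ x)) : HasLog L x := by
  obtain ⟨R, hR⟩ := hL.isBounded.exists_norm_le
  obtain ⟨p, hpV, hpR⟩ : ∃ p ∈ connectedComponentIn Lᶜ x, R + 1 < ‖p‖ := by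
    by_contra hcon
    push Not at hcon
    exact hub (isBounded_iff_forall_norm_le.2 ⟨R + 1, hcon⟩)
  set S : Set ℂ := {q | q ∈ Lᶜ ∧ HasLog L q} with hS
  have hLo : IsOpen Lᶜ := hL.isClosed.isOpen_compl
  -- local constancy
  have hloc : ∀ q ∈ Lᶜ, ∃ r > 0, ∀ q' ∈ ball q r, q' ∈ Lᶜ ∧ (HasLog L q ↔ HasLog L q') := by
    intro q hq
    obtain ⟨r, hr, hsub⟩ := Metric.isOpen_iff.1 hLo q hq
    refine ⟨r / 2, by linarith, fun q' hq' => ?_⟩
    rw [mem_ball, dist_eq_norm] at hq'
    have hfar : ∀ z ∈ L, r ≤ ‖z - q‖ := by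
      intro z hz
      by_contra hcon
      push Not at hcon
      exact hsub (by rw [mem_ball, dist_eq_norm]; exact hcon) hz
    refine ⟨hsub (by rw [mem_ball, dist_eq_norm]; linarith), fun h => hasLog_move h ?_, fun h => hasLog_move h ?_⟩
    · intro z hz
      have := hfar z hz
      linarith
    · intro z hz
      have h1 := hfar z hz
      have h2 : ‖z - q‖ ≤ ‖z - q'‖ + ‖q' - q‖ := by
        have := norm_add_le (z - q') (q' - q)
        rwa [sub_add_sub_cancel] at this
      rw [norm_sub_rev q q']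
      linarith
  have hSo : IsOpen S := by
    rw [Metric.isOpen_iff]
    rintro q ⟨hq, hq'⟩
    obtain ⟨r, hr, h⟩ := hloc q hq
    exact ⟨r, hr, fun q' hq'' => ⟨(h q' hq'').1, (h q' hq'').2.1 hq'⟩⟩
  have hpL : p ∈ Lᶜ := connectedComponentIn_subset _ _ hpV
  have hpS : p ∈ S := ⟨hpL, hasLog_far (fun z hz => by have := hR z hz; linarith) hne⟩
  have hsub : connectedComponentIn Lᶜ x ⊆ S := by
    apply isPreconnected_connectedComponentIn.subset_of_closure_inter_subset hSo ⟨p, hpV, hpS⟩
    rintro q ⟨hq1, hq2⟩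
    have hqL : q ∈ Lᶜ := connectedComponentIn_subset _ _ hq2
    obtain ⟨r, hr, h⟩ := hloc q hqL
    obtain ⟨q', hq', hd⟩ := Metric.mem_closure_iff.1 hq1 r hr
    exact ⟨hqL, (h q' (by rw [mem_ball, dist_comm]; exact hd)).2.2 hq'.2⟩
  exact (hsub (mem_connectedComponentIn hx)).2

/-- a symmetric connected set which contains real points on both sides of `x` winds around `x` -/
theorem not_hasLog {L : Set ℂ} (hLc : IsPreconnected L) (hsym : ∀ z ∈ L, (starRingEnd ℂ) z ∈ L) {a b x : ℝ}
    (ha : (a : ℂ) ∈ L) (hb : (b : ℂ) ∈ L) (hax : a < x) (hxb : x < b) : ¬ HasLog L (x : ℂ) := by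
  rintro ⟨g, hg, hg1⟩
  set h : ℂ → ℂ := fun z => (starRingEnd ℂ) (g ((starRingEnd ℂ) z)) with hh
  have hhc : ContinuousOn h L := by
    apply Complex.continuous_conj.comp_continuousOn
    exact hg.comp Complex.continuous_conj.continuousOn hsym
  have hh1 : ∀ z ∈ L, Complex.exp (h z) = z - x := by
    intro z hz
    rw [hh]
    simp only
    rw [Complex.exp_conj, hg1 _ (hsym z hz)]
    simp
  have hxL : (x : ℂ) ∉ L := by
    intro hx
    have := hg1 _ hx
    rw [sub_self] at this
    exact Complex.exp_ne_zero _ this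
  set u : ℂ → ℂ := fun z => Complex.exp ((h z - g z) / 2) with hu
  have huc : ContinuousOn u L := by
    apply Complex.continuous_exp.comp_continuousOn
    exact (hhc.sub hg).div_const _
  have hu2 : ∀ z ∈ L, u z = 1 ∨ u z = -1 := by
    intro z hz
    rw [← mul_self_eq_one_iff, hu]
    simp only
    rw [← Complex.exp_add, add_halves, Complex.exp_sub, hh1 z hz, hg1 z hz]
    apply div_self
    rw [sub_ne_zero]
    rintro rfl
    exact hxL hz
  have hreal : ∀ y : ℝ, (y : ℂ) ∈ L → u y = ((y - x) / |y - x| : ℝ) := by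
    intro y hy
    have hyx : y - x ≠ 0 := by
      rw [sub_ne_zero]
      rintro rfl
      exact hxL hy
    have e1 := hg1 _ hy
    have e2 : Real.exp (g y).re = |y - x| := by
      have := congrArg norm e1
      rw [Complex.norm_exp] at this
      rw [this, ← Complex.ofReal_sub, Complex.norm_real, Real.norm_eq_abs]
    have e3 : u y * ((y : ℂ) - x) = ((|y - x| : ℝ) : ℂ) := by
      rw [hu, ← e1]
      simp only
      rw [← Complex.exp_add, ← e2, Complex.ofReal_exp]
      congr 1
      rw [hh]
      simp only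
      rw [Complex.conj_ofReal]
      apply Complex.ext
      · simp
      · simp
        ring
    have hyx' : (y : ℂ) - x ≠ 0 := by exact_mod_cast hyx
    rw [eq_div_of_mul_eq hyx' e3]
    rw [← Complex.ofReal_sub, ← Complex.ofReal_div]
    congr 1
    have h5 : |y - x| ≠ 0 := abs_ne_zero.2 hyx
    rw [div_eq_div_iff hyx h5, ← sq, ← sq, sq_abs]
  have hre : ContinuousOn (fun z => (u z).re) L := Complex.continuous_re.comp_continuousOn huc
  have h0 := hLc.intermediate_value ha hb hre
  have e1 : (u (a : ℂ)).re = -1 := by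
    rw [hreal a ha, Complex.ofReal_re, abs_of_neg (by linarith), div_neg, div_self (by linarith)]
  have e2 : (u (b : ℂ)).re = 1 := by
    rw [hreal b hb, Complex.ofReal_re, abs_of_pos (by linarith), div_self (by linarith)]
  simp only [e1, e2] at h0
  obtain ⟨z, hz, hz0⟩ := h0 (show (0 : ℝ) ∈ Icc (-1) 1 by constructor <;> norm_num)
  simp only at hz0
  rcases hu2 z hz with h | h
  · rw [h] at hz0; norm_num at hz0
  · rw [h] at hz0; norm_num at hz0

theorem conj_f₀ (z : ℂ) : f₀ ((starRingEnd ℂ) z) = (starRingEnd ℂ) (f₀ z) := by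
  unfold f₀
  simp only [map_add, map_mul, map_div₀, map_sub, map_one, map_ofNat, ← Complex.cos_conj, ← Complex.sin_conj,
    Complex.conj_ofReal]

theorem conj_iter (j : ℕ) (z : ℂ) : f₀^[j] ((starRingEnd ℂ) z) = (starRingEnd ℂ) (f₀^[j] z) := by
  induction j generalizing z with
  | zero => rfl
  | succ j ih => rw [Function.iterate_succ_apply, Function.iterate_succ_apply, conj_f₀, ih]

theorem fatou_back_iter (j : ℕ) (z : ℂ) (h : f₀^[j] z ∈ FatouSet f₀) : z ∈ FatouSet f₀ := by
  induction j generalizing z with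
  | zero => exact h
  | succ j ih => 
    rw [Function.iterate_succ_apply] at h
    exact Pool.Agent.Y811.WD.t_BACK z (ih _ h)

/-- the region enclosed by a compact subset of the component of an integer and its mirror image lies in the Fatou set -/
theorem enclosed {n : ℤ} {K V : Set ℂ} (hK : IsCompact K) (hKU : K ⊆ FatouComponent f₀ (n : ℂ)) (hVo : IsOpen V)
    (hVb : Bornology.IsBounded V) (hVf : ∀ z ∈ frontier V, z ∈ K ∨ (starRingEnd ℂ) z ∈ K) : V ⊆ FatouSet f₀ := by
  by_cases hw : Wild n
  · obtain ⟨M, hM⟩ := Pool.Agent.Y514.WD.sch n hw K hK hKU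
    have hcl : ∀ᶠ j : ℕ in atTop, ∀ z ∈ closure V, ‖f₀^[j] z - ((T^[j] n : ℤ) : ℂ)‖ ≤ M := by
      filter_upwards [hM] with j hj z hz
      refine Complex.norm_le_of_forall_mem_frontier_norm_le hVb
        ((f₀_differentiable.iterate j).sub_const _).diffContOnCl ?_ hz
      intro w hw
      rcases hVf w hw with h | h
      · exact hj w h
      · have h2 := hj _ h
        rw [conj_iter, ← Complex.norm_conj] at h2
        simpa using h2
    intro z hz
    obtain ⟨r, hr, hsub⟩ := Metric.isOpen_iff.1 hVo z hz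
    refine ⟨r, hr, Pool.Agent.Y282.WD.near_normal' hw (M := M) ?_⟩
    filter_upwards [hcl] with j hj w hwr
    exact hj w (subset_closure (hsub hwr))
  · obtain ⟨k, p, a, hp, ha, hk⟩ := tame_hits hw
    have ha' : f₀^[p] (a : ℂ) = a := by rw [f₀_iter, ha]
    have hb := basin_of_hits (f := f₀) (a := (a : ℂ)) (p := p) (k := k) f₀_differentiable hp ha'
      (f₀_iter_deriv a p hp) (n := (n : ℂ)) (by rw [f₀_iter, hk])
    obtain ⟨r, hr, hcon⟩ := contraction (f₀_iter_deriv a p hp) ha'
    obtain ⟨s, hs, hsF⟩ := Metric.isOpen_iff.1 (isOpen_fatou f₀) (a : ℂ) (int_mem_fatou a)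
    set d := min r s with hd
    have hd0 : 0 < d := lt_min hr hs
    have huni : ∃ m0 : ℕ, ∀ m ≥ m0, ∀ z ∈ K, f₀^[k + p * m] z ∈ ball (a : ℂ) d := by
      refine hK.induction_on (p := fun K => ∃ m0 : ℕ, ∀ m ≥ m0, ∀ z ∈ K, f₀^[k + p * m] z ∈ ball (a : ℂ) d) ?_ ?_ ?_ ?_
      · exact ⟨0, fun m _ z hz => absurd hz (notMem_empty z)⟩
      · rintro s t hst ⟨m0, h⟩
        exact ⟨m0, fun m hm z hz => h m hm z (hst hz)⟩
      · rintro s t ⟨m0, h⟩ ⟨m1, h'⟩
        refine ⟨max m0 m1, fun m hm z hz => ?_⟩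
        rcases hz with hz | hz
        · exact h m (le_trans (le_max_left _ _) hm) z hz
        · exact h' m (le_trans (le_max_right _ _) hm) z hz
      · intro z hz
        have h1 := (hb z (hKU hz)).eventually (ball_mem_nhds (a : ℂ) hd0)
        obtain ⟨m0, hm0⟩ := eventually_atTop.1 h1
        have hc : Continuous (f₀^[k + p * m0]) := f₀_differentiable.continuous.iterate _
        have h2 : (f₀^[k + p * m0]) ⁻¹' ball (a : ℂ) d ∈ 𝓝 z :=
          (isOpen_ball.preimage hc).mem_nhds (hm0 m0 le_rfl)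
        refine ⟨_, mem_nhdsWithin_of_mem_nhds h2, m0, fun m hm w hw => ?_⟩
        obtain ⟨l, rfl⟩ := Nat.exists_eq_add_of_le hm
        have h3 : f₀^[k + p * (m0 + l)] w = (f₀^[p])^[l] (f₀^[k + p * m0] w) := by
          rw [← Function.iterate_mul, ← Function.iterate_add_apply]
          exact congrArg (fun t => f₀^[t] w) (by ring)
        rw [h3, mem_ball, dist_eq_norm]
        have hwb : f₀^[k + p * m0] w ∈ ball (a : ℂ) d := hw
        have h4 := hcon _ (ball_subset_ball (min_le_left _ _) hwb) l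
        rw [mem_ball, dist_eq_norm] at hwb
        calc _ ≤ (1 / 2) ^ l * ‖f₀^[k + p * m0] w - a‖ := h4
          _ ≤ 1 * ‖f₀^[k + p * m0] w - a‖ := by
            gcongr
            exact pow_le_one₀ (by norm_num) (by norm_num)
          _ < d := by linarith
    obtain ⟨m0, hm0⟩ := huni
    -- one more period to have a closed inequality strictly below `d`
    intro z hz
    have hle : ‖f₀^[k + p * (m0 + 1)] z - (a : ℂ)‖ ≤ 1 / 2 * d := by
      refine Complex.norm_le_of_forall_mem_frontier_norm_le (f := fun z => f₀^[k + p * (m0 + 1)] z - (a : ℂ)) hVb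
        ((f₀_differentiable.iterate _).sub_const _).diffContOnCl ?_ (subset_closure hz)
      have key : ∀ w ∈ K, ‖f₀^[k + p * (m0 + 1)] w - (a : ℂ)‖ ≤ 1 / 2 * d := by
        intro w hw
        have hwb := hm0 m0 le_rfl w hw
        have h3 : f₀^[k + p * (m0 + 1)] w = (f₀^[p])^[1] (f₀^[k + p * m0] w) := by
          rw [← Function.iterate_mul, ← Function.iterate_add_apply]
          exact congrArg (fun t => f₀^[t] w) (by ring)
        have h4 := hcon _ (ball_subset_ball (min_le_left _ _) hwb) 1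
        rw [mem_ball, dist_eq_norm] at hwb
        rw [h3]
        linarith
      intro w hw
      rcases hVf w hw with h | h
      · exact key w h
      · have h2 := key _ h
        rw [conj_iter, ← Complex.norm_conj] at h2
        simpa using h2
    apply fatou_back_iter (k + p * (m0 + 1))
    apply hsF
    rw [mem_ball, dist_eq_norm]
    have : d ≤ s := min_le_right _ _
    linarith

theorem frontier_comp {O : Set ℂ} (hO : IsOpen O) {x z : ℂ}
    (hz : z ∈ frontier (connectedComponentIn O x)) : z ∉ O := by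
  intro hzO
  have hop : IsOpen (connectedComponentIn O x) := hO.connectedComponentIn
  rw [hop.frontier_eq] at hz
  obtain ⟨w, hw1, hw2⟩ := mem_closure_iff_nhds.1 hz.1 _
    (hO.connectedComponentIn.mem_nhds (mem_connectedComponentIn hzO))
  apply hz.2
  rw [connectedComponentIn_eq hw2, ← connectedComponentIn_eq hw1]
  exact mem_connectedComponentIn hzO

theorem sep_lt {a b : ℤ} (hab : a < b) (hne : ¬ (a = -2 ∧ b = -1)) : FatouComponent f₀ (a : ℂ) ≠ FatouComponent f₀ (b : ℂ) := by
  intro heq
  obtain ⟨x, hax, hxb, hxF⟩ : ∃ x : ℝ, (a : ℝ) ≤ x ∧ x ≤ b ∧ (x : ℂ) ∉ FatouSet f₀ := by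
    by_cases h : a = -2
    · have hb : b - 1 ≠ -2 := by omega
      obtain ⟨x, h1, h2, h3⟩ := jul_all hb
      have h4 : (a : ℝ) ≤ (b - 1 : ℤ) := by exact_mod_cast (by omega : a ≤ b - 1)
      refine ⟨x, by linarith, ?_, h3⟩
      push_cast at h2
      linarith
    · obtain ⟨x, h1, h2, h3⟩ := jul_all h
      have h4 : (a : ℝ) + 1 ≤ b := by exact_mod_cast (by omega : a + 1 ≤ b)
      exact ⟨x, h1, by linarith, h3⟩
  have hax' : (a : ℝ) < x := by
    apply lt_of_le_of_ne hax
    rintro rfl
    exact hxF (by simpa using int_mem_fatou a)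
  have hxb' : x < b := by
    apply lt_of_le_of_ne hxb
    rintro rfl
    exact hxF (by simpa using int_mem_fatou b)
  set U := FatouComponent f₀ (a : ℂ) with hU
  have haU : (a : ℂ) ∈ U := mem_connectedComponentIn (int_mem_fatou a)
  have hbU : (b : ℂ) ∈ U := by rw [heq]; exact mem_connectedComponentIn (int_mem_fatou b)
  have hUo : IsOpen U := component_isOpen f₀ a
  have hUc : IsConnected U := ⟨⟨_, haU⟩, isPreconnected_connectedComponentIn⟩
  have hUF : U ⊆ FatouSet f₀ := connectedComponentIn_subset _ _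
  have hpath := (hUo.isConnected_iff_isPathConnected.1 hUc).joinedIn _ haU _ hbU
  obtain ⟨γ, hγ⟩ := hpath
  set K : Set ℂ := range γ with hKdef
  have hK : IsCompact K := isCompact_range γ.continuous
  have hKc : IsPreconnected K := isPreconnected_range γ.continuous
  have hKU : K ⊆ U := by
    rintro _ ⟨t, rfl⟩
    exact hγ t
  have haK : (a : ℂ) ∈ K := ⟨0, γ.source⟩
  have hbK : (b : ℂ) ∈ K := ⟨1, γ.target⟩
  set L : Set ℂ := K ∪ (starRingEnd ℂ) '' K with hL
  have hLcomp : IsCompact L := hK.union (hK.image Complex.continuous_conj)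
  have hLconn : IsPreconnected L := by
    exact IsPreconnected.union (a : ℂ) haK ⟨(a : ℂ), haK, by simp⟩ hKc
      (hKc.image _ Complex.continuous_conj.continuousOn)
  have hsym : ∀ z ∈ L, (starRingEnd ℂ) z ∈ L := by
    rintro z (hz | ⟨w, hw, rfl⟩)
    · exact Or.inr ⟨z, hz, rfl⟩
    · left; simpa using hw
  have hxK : (x : ℂ) ∉ K := fun h => hxF (hUF (hKU h))
  have hxL : (x : ℂ) ∈ Lᶜ := by
    rintro (h | ⟨w, hw, hwx⟩)
    · exact hxK h
    · have : w = x := by
        have := congrArg (starRingEnd ℂ) hwx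
        simpa using this
      rw [this] at hw
      exact hxK hw
  set V := connectedComponentIn Lᶜ (x : ℂ) with hV
  have hLo : IsOpen Lᶜ := hLcomp.isClosed.isOpen_compl
  have hbd : Bornology.IsBounded V := by
    by_contra hcon
    refine not_hasLog hLconn hsym (a := (a : ℝ)) (b := (b : ℝ)) ?_ ?_ hax' hxb'
      (hasLog_of_unbounded hLcomp ⟨_, Or.inl haK⟩ hxL hcon)
    · left; simpa using haK
    · left; simpa using hbK
  have hVF : V ⊆ FatouSet f₀ := by
    refine enclosed hK hKU hLo.connectedComponentIn hbd ?_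
    intro z hz
    have h1 := frontier_comp hLo hz
    rw [mem_compl_iff, not_not] at h1
    rcases h1 with h | ⟨w, hw, rfl⟩
    · exact Or.inl h
    · right; simpa using hw
  exact hxF (hVF (mem_connectedComponentIn hxL))

/-- distinct integers lie in distinct Fatou components of `f₀`, except `-2` and `-1` -/
theorem sep {a b : ℤ} (hab : a ≠ b) (h1 : ¬ (a = -2 ∧ b = -1)) (h2 : ¬ (b = -2 ∧ a = -1)) :
    FatouComponent f₀ (a : ℂ) ≠ FatouComponent f₀ (b : ℂ) := by
  rcases lt_or_gt_of_ne hab with h | h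
  · exact sep_lt h h1
  · exact (sep_lt h h2).symm

end Pool.Agent.J4H39.SC
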