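import Pool.Agent.J4H39.SC.T3
import Pool.Agent.J4H39.SC.Sep

/-!
From integers to Fatou components of `f₀`.
-/

set_option autoImplicit false

open Filter Topology

namespace Pool.Agent.J4H39.SC

open Pool.Agent.H384R2.Fatou

open Pool.Agent.H723R2.LSW (f₀)

/-- `f₀^t` maps the Fatou components of all but at most `ε H` of `n + 1, …, n + H` into at most `k` components -/
def Cond (ε : ℝ) (t H : ℕ) (n : ℤ) (k : ℕ) : Prop :=
  ∃ S : Finset (Set ℂ), S.card ≤ k ∧ (∀ V ∈ S, ∃ z ∈ FatouSet f₀, V = FatouComponent f₀ z) ∧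
    ({h : ℕ | 1 ≤ h ∧ h ≤ H ∧ ¬ ∃ V ∈ S, f₀^[t] '' FatouComponent f₀ ((n + h : ℤ) : ℂ) ⊆ V}.ncard : ℝ) ≤ ε * H

/-- the least such number -/
noncomputable def num (ε : ℝ) (t H : ℕ) (n : ℤ) : ℕ := sInf {k | Cond ε t H n k}

theorem T_lsw : (T : ℤ → ℤ) = Pool.Agent.H723R2.LSW.T := rfl

theorem f_T (t : ℕ) (m : ℤ) : f₀^[t] (m : ℂ) = ((T^[t] m : ℤ) : ℂ) := by
  rw [T_lsw]; exact Pool.Agent.H723R2.LSW.f₀_iter m t

theorem cond_of_int {ε : ℝ} {t H : ℕ} {n : ℤ} (V : Finset ℤ)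
    (hV : ((Finset.univ.filter fun h => vw t H n h ∉ V).card : ℝ) ≤ ε * H) : Cond ε t H n V.card := by
  classical
  refine ⟨V.image (fun m : ℤ => FatouComponent f₀ (m : ℂ)), Finset.card_image_le, ?_, ?_⟩
  · intro W hW
    obtain ⟨m, hm, rfl⟩ := Finset.mem_image.1 hW
    exact ⟨m, Pool.Agent.H723R2.LSW.int_mem_fatou m, rfl⟩
  · refine le_trans ?_ hV
    have hsub : {h : ℕ | 1 ≤ h ∧ h ≤ H ∧ ¬ ∃ W ∈ V.image (fun m : ℤ => FatouComponent f₀ (m : ℂ)),
        f₀^[t] '' FatouComponent f₀ ((n + h : ℤ) : ℂ) ⊆ W} ⊆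
        ((Finset.univ.filter fun h => vw t H n h ∉ V).image (fun h : Fin H => (h : ℕ) + 1) : Finset ℕ) := by
      rintro h ⟨h1, h2, h3⟩
      rw [Finset.mem_coe, Finset.mem_image]
      refine ⟨⟨h - 1, by omega⟩, ?_, by simp; omega⟩
      rw [Finset.mem_filter]
      refine ⟨Finset.mem_univ _, fun hv => h3 ⟨_, Finset.mem_image.2 ⟨_, hv, rfl⟩, ?_⟩⟩
      have e1 := Pool.Agent.H723R2.LSW.component_map Pool.Agent.H723R2.LSW.f₀_differentiable.continuous
        Pool.Agent.H723R2.LSW.f₀_open (Pool.Agent.H723R2.LSW.int_mem_fatou (n + h)) t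
      rw [f_T] at e1
      have e2 : vw t H n ⟨h - 1, by omega⟩ = T^[t] (n + h) := by
        unfold vw
        congr 1
        simp only
        omega
      rw [e2]
      exact e1
    have h1 := Set.ncard_le_ncard hsub (Finset.finite_toSet _)
    rw [Set.ncard_coe_finset] at h1
    exact_mod_cast h1.trans Finset.card_image_le

theorem int_of_cond {ε : ℝ} {t H : ℕ} {n : ℤ} {k : ℕ} (h : Cond ε t H n k) :
    ∃ V : Finset ℤ, V.card ≤ k + 1 ∧ ((Finset.univ.filter fun h => vw t H n h ∉ V).card : ℝ) ≤ ε * H := by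
  classical
  obtain ⟨S, hS, hSc, hb⟩ := h
  set G : Finset (Fin H) := Finset.univ.filter fun h : Fin H =>
    ∃ V ∈ S, f₀^[t] '' FatouComponent f₀ ((n + ((h : ℕ) + 1 : ℕ) : ℤ) : ℂ) ⊆ V with hG
  set V : Finset ℤ := G.image (vw t H n) with hV
  have hcomp : ∀ v ∈ V, FatouComponent f₀ (v : ℂ) ∈ S := by
    intro v hv
    obtain ⟨h, hh, rfl⟩ := Finset.mem_image.1 hv
    obtain ⟨-, W, hW, hsub⟩ := Finset.mem_filter.1 hh
    obtain ⟨z, hz, rfl⟩ := hSc W hW
    have h1 : ((n + ((h : ℕ) + 1 : ℕ) : ℤ) : ℂ) ∈ FatouComponent f₀ ((n + ((h : ℕ) + 1 : ℕ) : ℤ) : ℂ) :=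
      mem_connectedComponentIn (Pool.Agent.H723R2.LSW.int_mem_fatou _)
    have h2 := hsub ⟨_, h1, rfl⟩
    rw [f_T] at h2
    have e2 : vw t H n h = T^[t] (n + ((h : ℕ) + 1 : ℕ)) := by
      unfold vw
      congr 1
      push_cast
      ring
    rw [e2]
    have e3 : FatouComponent f₀ z = FatouComponent f₀ ((T^[t] (n + ((h : ℕ) + 1 : ℕ)) : ℤ) : ℂ) :=
      connectedComponentIn_eq h2
    rw [← e3]
    exact hW
  refine ⟨V, ?_, ?_⟩
  · have hinj : (V.erase (-1)).card ≤ S.card := by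
      apply Finset.card_le_card_of_injOn (fun v : ℤ => FatouComponent f₀ (v : ℂ))
      · intro v hv
        exact hcomp v (Finset.mem_of_mem_erase hv)
      · intro a ha b hb hab
        by_contra hne
        have ha' := Finset.ne_of_mem_erase (Finset.mem_coe.1 ha)
        have hb' := Finset.ne_of_mem_erase (Finset.mem_coe.1 hb)
        exact sep hne (fun h => hb' h.2) (fun h => ha' h.2) hab
    have := Finset.pred_card_le_card_erase (s := V) (a := (-1 : ℤ))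
    omega
  · refine le_trans ?_ hb
    have hsub : ((Finset.univ.filter fun h => vw t H n h ∉ V).image (fun h : Fin H => (h : ℕ) + 1) : Finset ℕ) ⊆
        (((Finset.Icc 1 H).filter fun h : ℕ => ¬ ∃ V ∈ S, f₀^[t] '' FatouComponent f₀ ((n + h : ℤ) : ℂ) ⊆ V) : Finset ℕ) := by
      intro h hh
      obtain ⟨i, hi, rfl⟩ := Finset.mem_image.1 hh
      have hi2 := (Finset.mem_filter.1 hi).2
      rw [Finset.mem_filter, Finset.mem_Icc]
      refine ⟨⟨by omega, by have := i.2; omega⟩, fun hcon => hi2 ?_⟩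
      exact Finset.mem_image_of_mem _ (Finset.mem_filter.2 ⟨Finset.mem_univ _, hcon⟩)
    have h1 := Finset.card_le_card hsub
    rw [Finset.card_image_of_injective _ (fun a b hab => by
      apply Fin.ext; simpa using hab)] at h1
    have h2 : {h : ℕ | 1 ≤ h ∧ h ≤ H ∧ ¬ ∃ V ∈ S, f₀^[t] '' FatouComponent f₀ ((n + h : ℤ) : ℂ) ⊆ V} =
        (((Finset.Icc 1 H).filter fun h : ℕ => ¬ ∃ V ∈ S, f₀^[t] '' FatouComponent f₀ ((n + h : ℤ) : ℂ) ⊆ V : Finset ℕ) : Set ℕ) := by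
      ext h
      simp only [Set.mem_ofPred_eq, Finset.coe_filter, Finset.mem_Icc, and_assoc]
    rw [h2, Set.ncard_coe_finset]
    exact_mod_cast h1

end Pool.Agent.J4H39.SC
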