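import Pool.Agent.J4H39.SC.Fin
import Pool.Agent.J4H79.SC.Mup
import Pool.Agent.J4H79.SC.Sa
import Pool.Agent.J4H79.SC.Tail
import Pool.Agent.J4H49.SC.Nc
import Pool.Agent.J4H2.SC.Hit
import Pool.Agent.J4H2.SC.Mlo

/-!
The number of Fatou components which carry a window of consecutive integers.
-/

set_option autoImplicit false

open Filter Topology

namespace Pool.Agent.J4H39.SC

open Pool.Agent.H384R2.Fatou

theorem MUP : S_MUP := Pool.Agent.J4H79.SC.t_MUP Pool.Agent.J4H49.SC.t_UP Pool.Agent.J4H79.SC.t_TAIL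

theorem MLO : S_MLO := Pool.Agent.J4H2.SC.t_MLO Pool.Agent.J4H49.SC.t_LO Pool.Agent.J4H2.SC.t_HIT

theorem cond_all {ε : ℝ} (hε : 0 ≤ ε) (t H : ℕ) (n : ℤ) : {k | Cond ε t H n k}.Nonempty := by
  refine ⟨_, cond_of_int (Finset.univ.image (vw t H n)) ?_⟩
  have : (Finset.univ.filter fun h => vw t H n h ∉ Finset.univ.image (vw t H n)) = ∅ := by
    rw [Finset.filter_eq_empty_iff]
    intro h _
    rw [not_not]
    exact Finset.mem_image_of_mem _ (Finset.mem_univ _)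
  rw [this, Finset.card_empty, Nat.cast_zero]
  positivity

theorem cond_num {ε : ℝ} (hε : 0 ≤ ε) (t H : ℕ) (n : ℤ) : Cond ε t H n (num ε t H n) :=
  Nat.sInf_mem (cond_all hε t H n)

theorem main_comp {θ τ : ℝ} (hθ : 0 < θ) (hθ1 : θ < 1) (hτθ : θ < τ * th0) (hτ1 : τ * th0 < 1) {η δ : ℝ}
    (hη : 0 < η) (hδ : 0 < δ) :
    ∃ ε₀ : ℝ, 0 < ε₀ ∧ ∀ ε : ℝ, 0 < ε → ε ≤ ε₀ → ∃ N₀ : ℕ, ∀ N ≥ N₀, ∀ x : ℤ,
      ({n : ℤ | x ≤ n ∧ n < x + N ∧ η * √ (Real.log (1 / ε)) <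
        |(num ε (tN τ N) (HN θ N) n : ℝ) - √ (8 * (θ / (τ * th0 - θ)) / Real.pi) * √ (Real.log (1 / ε))|}.ncard : ℝ) ≤
      δ * N := by
  classical
  obtain ⟨κ, hκ⟩ : ∃ κ, κ = √ (8 * (θ / (τ * th0 - θ)) / Real.pi) := ⟨_, rfl⟩
  obtain ⟨ε₀, hε₀, h⟩ := main_int MUP MLO Pool.Agent.J4H79.SC.t_SA1 Pool.Agent.J4H79.SC.t_SA2 hθ hθ1 hτθ hτ1
    (half_pos hη) (half_pos hδ)
  rw [← hκ] at h ⊢
  refine ⟨min ε₀ (Real.exp (-(2 / η) ^ 2)), lt_min hε₀ (Real.exp_pos _), ?_⟩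
  intro ε hε hεle
  have hL : (2 / η) ^ 2 ≤ Real.log (1 / ε) := by
    rw [one_div, Real.log_inv]
    have := (Real.log_le_log hε (hεle.trans (min_le_right _ _)))
    rw [Real.log_exp] at this
    linarith
  have hs : 2 / η ≤ √ (Real.log (1 / ε)) := Real.le_sqrt_of_sq_le hL
  have hs1 : 1 ≤ η / 2 * √ (Real.log (1 / ε)) := by
    calc (1 : ℝ) = η / 2 * (2 / η) := by field_simp
      _ ≤ _ := by gcongr
  obtain ⟨N₀, hN⟩ := eventually_atTop.1 (h ε hε (hεle.trans (min_le_left _ _)))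
  refine ⟨N₀, fun N hNN x => ?_⟩
  obtain ⟨b1, b2⟩ := hN N hNN x
  obtain ⟨L, hLL⟩ : ∃ L, L = √ (Real.log (1 / ε)) := ⟨_, rfl⟩
  rw [← hLL] at b1 b2 hs1 ⊢
  set B1 := Finset.univ.filter fun v : Fin N => ¬ ∃ V : Finset ℤ, (V.card : ℝ) ≤ (κ + η / 2) * L ∧
        ((Finset.univ.filter fun h => vw (tN τ N) (HN θ N) (x + ((v : ℕ) : ℤ)) h ∉ V).card : ℝ) ≤ ε * HN θ N with hB1
  set B2 := Finset.univ.filter fun v : Fin N => ∃ V : Finset ℤ, (V.card : ℝ) < (κ - η / 2) * L ∧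
        ((Finset.univ.filter fun h => vw (tN τ N) (HN θ N) (x + ((v : ℕ) : ℤ)) h ∉ V).card : ℝ) ≤ ε * HN θ N with hB2
  have hsub : {n : ℤ | x ≤ n ∧ n < x + N ∧ η * L < |(num ε (tN τ N) (HN θ N) n : ℝ) - κ * L|} ⊆
      ((B1 ∪ B2).image (fun v : Fin N => x + ((v : ℕ) : ℤ)) : Finset ℤ) := by
    rintro n ⟨h1, h2, h3⟩
    rw [Finset.mem_coe, Finset.mem_image]
    obtain ⟨v, hv⟩ : ∃ v : ℕ, n = x + v := ⟨(n - x).toNat, by omega⟩
    refine ⟨⟨v, by omega⟩, ?_, hv.symm⟩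
    rw [Finset.mem_union]
    by_cases hc : (num ε (tN τ N) (HN θ N) n : ℝ) ≤ κ * L
    · right
      rw [abs_of_nonpos (by linarith)] at h3
      rw [hB2, Finset.mem_filter]
      obtain ⟨V, hV1, hV2⟩ := int_of_cond (cond_num hε.le (tN τ N) (HN θ N) n)
      refine ⟨Finset.mem_univ _, V, ?_, ?_⟩
      · have : (V.card : ℝ) ≤ num ε (tN τ N) (HN θ N) n + 1 := by exact_mod_cast hV1
        have e : (κ - η / 2) * L = κ * L - η * L + η / 2 * L := by ring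
        rw [e]
        linarith
      · simp only
        rw [← hv]
        exact hV2
    · left
      push Not at hc
      rw [abs_of_pos (by linarith)] at h3
      rw [hB1, Finset.mem_filter]
      refine ⟨Finset.mem_univ _, ?_⟩
      rintro ⟨V, hV1, hV2⟩
      simp only at hV2
      rw [← hv] at hV2
      have h4 : num ε (tN τ N) (HN θ N) n ≤ V.card := Nat.sInf_le (cond_of_int V hV2)
      have h5 : (num ε (tN τ N) (HN θ N) n : ℝ) ≤ V.card := by exact_mod_cast h4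
      have e : (κ + η / 2) * L = κ * L + η / 2 * L := by ring
      have : 0 ≤ η / 2 * L := by linarith
      nlinarith
  have h1 := Set.ncard_le_ncard hsub (Finset.finite_toSet _)
  rw [Set.ncard_coe_finset] at h1
  have h2 : ((B1 ∪ B2).image (fun v : Fin N => x + ((v : ℕ) : ℤ))).card ≤ B1.card + B2.card :=
    Finset.card_image_le.trans (Finset.card_union_le _ _)
  have h3 : (({n : ℤ | x ≤ n ∧ n < x + N ∧ η * L < |(num ε (tN τ N) (HN θ N) n : ℝ) - κ * L|}.ncard : ℕ) : ℝ) ≤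
      (B1.card : ℝ) + B2.card := by exact_mod_cast h1.trans h2
  have b1' : (B1.card : ℝ) ≤ δ / 2 * N := by
    refine le_trans (le_of_eq ?_) b1
    rw [hB1]
  have b2' : (B2.card : ℝ) ≤ δ / 2 * N := by
    refine le_trans (le_of_eq ?_) b2
    rw [hB2]
  linarith

end Pool.Agent.J4H39.SC
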