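import Mathlib
import Pool.Agent.J4H26.KT.W5
import Pool.Agent.J4H39.Z8
import Pool.Agent.J4H39.SC.Stm

set_option autoImplicit false

/-! Project SC: the transfer. -/

namespace Pool.Agent.J4H39.SC

open Finset Filter Real
open Pool.Agent.J4H26.KT (Adm fW obT wm Tp mnK_sum window_law)

open Classical in
/-- the number of classes of a relation -/
noncomputable def cnt {K : ℕ} (p : Fin K → Fin K → Prop) : ℕ := (univ.image (fun i => univ.filter (fun j => p i j))).card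

theorem cnt_eq {K : ℕ} (v : Fin K → ℤ) : cnt (fun i j => v i = v j) = ncl v := by
  classical
  have e : (univ.image fun i => univ.filter fun j => v i = v j) = (univ.image v).image (fun w => univ.filter fun j => w = v j) := by
    rw [image_image]; rfl
  have e0 : cnt (fun i j => v i = v j) = (univ.image fun i => univ.filter fun j => v i = v j).card := by
    unfold cnt
    congr!
  rw [e0, e]
  unfold ncl
  apply card_image_of_injOn
  intro w hw w' hw' h
  rw [mem_coe] at hw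
  obtain ⟨i, _, rfl⟩ := mem_image.1 hw
  have h1 : i ∈ univ.filter (fun j => v i = v j) := by simp
  simp only at h
  rw [h] at h1
  exact (mem_filter.1 h1).2.symm

theorem ncl_le_cons {K : ℕ} (a : ℤ) (v : Fin K → ℤ) : ncl v ≤ ncl (Fin.cons a v : Fin (K + 1) → ℤ) := by
  unfold ncl
  apply card_le_card
  intro w hw
  obtain ⟨i, _, rfl⟩ := mem_image.1 hw
  exact mem_image.2 ⟨i.succ, mem_univ _, by simp⟩

theorem ncl_cons_le {K : ℕ} (a : ℤ) (v : Fin K → ℤ) : ncl (Fin.cons a v : Fin (K + 1) → ℤ) ≤ ncl v + 1 := by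
  unfold ncl
  refine (card_le_card (t := insert a (univ.image v)) ?_).trans (card_insert_le _ _)
  intro w hw
  obtain ⟨i, _, rfl⟩ := mem_image.1 hw
  refine Fin.cases ?_ (fun j => ?_) i
  · simp
  · simp

/-- the test function of an event about the number of classes -/
noncomputable def tf (K : ℕ) (P : ℕ → Prop) (_ : Fin K → ℝ) (p : Fin K → Fin K → Prop) : ℝ := id1 (P (cnt p))

theorem tf_adm (K : ℕ) (P : ℕ → Prop) : Adm (tf K P) := by
  refine ⟨fun u p => ?_, fun u v p => ?_⟩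
  · unfold tf
    rw [abs_of_nonneg (id1_nonneg _)]
    exact id1_le_one _
  · unfold tf
    rw [sub_self, abs_zero]
    exact norm_nonneg _

theorem tf_ob {K : ℕ} (P : ℕ → Prop) (t : ℕ) (U : Fin K → ℤ) : obT (tf K P) t U = id1 (P (ncl (fun i => T^[t] (U i)))) := by
  unfold obT tf
  rw [show Tp t U = fun i j => T^[t] (U i) = T^[t] (U j) from rfl]
  rw [cnt_eq (fun i => T^[t] (U i))]

theorem tf_fW {K : ℕ} (P : ℕ → Prop) (t : ℝ) : fW (tf K P) t = fun z => id1 (P (ncl z)) := by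
  funext z
  unfold fW tf
  rw [cnt_eq z]

/-- counting bad points -/
theorem bad_le {K N H : ℕ} (hH : 1 ≤ H) (x : ℤ) {F : (Fin (K + 1) → ℤ) → ℝ} (hF : ∀ U, 0 ≤ F U) {c : ℝ}
    (B : ℤ → Prop) [DecidablePred B]
    (h : ∀ n, B n → c * (H : ℝ) ^ K ≤ ∑ g : Fin K → Fin H, F (Fin.cons n (fun i => n + 1 + ((g i : ℕ) : ℤ)))) :
    ((univ.filter fun v : Fin N => B (x + ((v : ℕ) : ℤ))).card : ℝ) * c ≤ N * wm K N H x F := by
  have hH0 : (0 : ℝ) < (H : ℝ) ^ K := by
    have : (0 : ℝ) < H := by exact_mod_cast hH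
    positivity
  rcases Nat.eq_zero_or_pos N with hN | hN
  · subst hN; simp
  have hN0 : (0 : ℝ) < N := by exact_mod_cast hN
  unfold wm mn
  have e : ∀ n : ℤ, mnK K (fun _ => n + 1) (fun _ => H) (fun u => F (Fin.cons n u)) =
      (∑ g : Fin K → Fin H, F (Fin.cons n (fun i => n + 1 + ((g i : ℕ) : ℤ)))) / (H : ℝ) ^ K := fun n => mnK_sum K (n + 1) H _
  rw [mul_div_cancel₀ _ hN0.ne']
  simp only [e]
  rw [Finset.sum_range, Finset.card_filter]
  push_cast
  rw [sum_mul]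
  apply sum_le_sum
  intro v _
  split_ifs with hv
  · rw [one_mul, le_div_iff₀ hH0]
    exact h _ hv
  · rw [zero_mul]
    exact div_nonneg (sum_nonneg fun _ _ => hF _) hH0.le

theorem close {θ τ : ℝ} (hθ : 0 < θ) (hτθ : θ < τ * th0) (s₀ : ℕ) {γ : ℝ} (hγ : 0 < γ) :
    ∀ᶠ N : ℕ in atTop, s₀ ≤ tN (θ / th0) N ∧
      |(tN (θ / th0) N : ℝ) - θ / (τ * th0 - θ) * ((tN τ N - tN (θ / th0) N : ℕ) : ℝ)| ≤ γ * ((tN τ N - tN (θ / th0) N : ℕ) : ℝ) := by
  have hth := th0_pos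
  obtain ⟨σ, hσ⟩ : ∃ σ, σ = θ / th0 := ⟨_, rfl⟩
  have hσ0 : 0 < σ := by rw [hσ]; positivity
  have hστ : σ < τ := by rw [hσ, div_lt_iff₀ hth]; exact hτθ
  obtain ⟨ρ, hρ⟩ : ∃ ρ, ρ = θ / (τ * th0 - θ) := ⟨_, rfl⟩
  have hρ' : ρ = σ / (τ - σ) := by
    rw [hρ, hσ]
    have h1 : τ * th0 - θ ≠ 0 := by
      have : 0 < τ * th0 - θ := by linarith
      exact this.ne'
    have h2 : τ - θ / th0 ≠ 0 := by
      rw [hσ] at hστ
      have : 0 < τ - θ / th0 := by linarith
      exact this.ne'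
    field_simp
  have hρ0 : 0 < ρ := by rw [hρ']; exact div_pos hσ0 (by linarith)
  rw [← hσ, ← hρ]
  have hLt : Tendsto (fun N : ℕ => logb 2 (N : ℝ)) atTop atTop :=
    (Real.tendsto_logb_atTop (by norm_num)).comp tendsto_natCast_atTop_atTop
  filter_upwards [hLt.eventually_ge_atTop ((s₀ + 1) / σ), hLt.eventually_ge_atTop (((1 + 2 * ρ) / γ + 1) / (τ - σ)), hLt.eventually_ge_atTop 0]
    with N h1 h2 h3
  obtain ⟨L, hL⟩ : ∃ L, L = logb 2 (N : ℝ) := ⟨_, rfl⟩
  rw [← hL] at h1 h2 h3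
  have hτ0 : 0 < τ := hσ0.trans hστ
  have a1 : (tN σ N : ℝ) ≤ σ * L := by rw [hL] at h3 ⊢; exact Nat.floor_le (mul_nonneg hσ0.le h3)
  have a2 : σ * L < tN σ N + 1 := by rw [hL]; exact Nat.lt_floor_add_one _
  have b1 : (tN τ N : ℝ) ≤ τ * L := by rw [hL] at h3 ⊢; exact Nat.floor_le (mul_nonneg hτ0.le h3)
  have b2 : τ * L < tN τ N + 1 := by rw [hL]; exact Nat.lt_floor_add_one _
  have hd : 0 < τ - σ := by linarith
  rw [div_le_iff₀ hσ0] at h1
  rw [div_le_iff₀ hd] at h2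
  have hle : tN σ N ≤ tN τ N := by
    unfold tN
    exact Nat.floor_le_floor (mul_le_mul_of_nonneg_right hστ.le (by rw [← hL]; exact h3))
  have e1 : ((tN τ N - tN σ N : ℕ) : ℝ) = tN τ N - tN σ N := by rw [Nat.cast_sub hle]
  refine ⟨?_, ?_⟩
  · have : (s₀ : ℝ) ≤ tN σ N := by nlinarith
    exact_mod_cast this
  · rw [e1]
    have h4 : (1 + 2 * ρ) / γ ≤ (tN τ N : ℝ) - tN σ N := by nlinarith
    rw [div_le_iff₀ hγ] at h4
    have e2 : (tN σ N : ℝ) - ρ * (tN τ N - tN σ N) = (1 + ρ) * (tN σ N - σ * L) - ρ * (tN τ N - τ * L) := by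
      have : ρ * (τ - σ) = σ := by rw [hρ']; field_simp
      linear_combination (-L) * this
    rw [e2, abs_le]
    constructor
    · nlinarith
    · nlinarith

end Pool.Agent.J4H39.SC
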