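import Mathlib
import Pool.Agent.J4H39.SC.T

set_option autoImplicit false

/-! Project SC: the theorem for the integers. -/

namespace Pool.Agent.J4H39.SC

open Finset Filter Real
open Pool.Agent.J4H26.KT (Adm fW obT wm Tp mnK_sum window_law)

/-- the images of the window -/
def vw (t H : ℕ) (n : ℤ) (h : Fin H) : ℤ := T^[t] (n + 1 + ((h : ℕ) : ℤ))

theorem ncl_T {k H : ℕ} (t : ℕ) (n : ℤ) (g : Fin k → Fin H) :
    ncl (fun i => T^[t] ((Fin.cons n (fun i => n + 1 + ((g i : ℕ) : ℤ)) : Fin (k + 1) → ℤ) i)) =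
      ncl (Fin.cons (T^[t] n) (fun i => vw t H n (g i)) : Fin (k + 1) → ℤ) := by
  congr 1
  funext i
  refine Fin.cases ?_ (fun j => ?_) i
  · simp
  · simp [vw]

theorem card_fun (k H : ℕ) : ((univ : Finset (Fin k → Fin H)).card : ℝ) = (H : ℝ) ^ k := by
  rw [card_univ, Fintype.card_fun, Fintype.card_fin, Fintype.card_fin]
  push_cast; rfl

theorem sum_id1 {ι : Type} [Fintype ι] (P : ι → Prop) [DecidablePred P] : ∑ g, id1 (P g) = ((univ.filter P).card : ℝ) := by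
  rw [Finset.card_filter]
  push_cast
  apply sum_congr rfl
  intro g _
  unfold id1
  split_ifs <;> rfl

/-- many values are needed -/
theorem up_point (h1 : S_SA1) {H k t : ℕ} {n : ℤ} {ε M thr : ℝ} (hH : 1 ≤ H) (hε : 0 < ε) (hM : 0 ≤ M)
    (hk : 2 * (M + 1) ≤ ε * k) (hthr : thr ≤ M)
    (hB : ¬ ∃ V : Finset ℤ, (V.card : ℝ) ≤ M ∧ ((univ.filter fun h => vw t H n h ∉ V).card : ℝ) ≤ ε * H) :
    1 / 2 * (H : ℝ) ^ k ≤ ∑ g : Fin k → Fin H, id1 (thr ≤ (ncl (fun i => T^[t] ((Fin.cons n (fun i => n + 1 + ((g i : ℕ) : ℤ)) : Fin (k + 1) → ℤ) i)) : ℝ)) := by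
  obtain ⟨m, hm⟩ : ∃ m, m = ⌊M⌋₊ := ⟨_, rfl⟩
  have hm1 : (m : ℝ) ≤ M := by rw [hm]; exact Nat.floor_le hM
  have hm2 : M < m + 1 := by rw [hm]; exact Nat.lt_floor_add_one M
  have h2 := h1 H k m ε (vw t H n) hε hH (by
    intro V hV
    by_contra hcon
    push Not at hcon
    exact hB ⟨V, (by exact_mod_cast hV : (V.card : ℝ) ≤ m).trans hm1, hcon⟩)
  have hH0 : (0 : ℝ) < (H : ℝ) ^ k := by
    have : (0 : ℝ) < H := by exact_mod_cast hH
    positivity
  obtain ⟨S, hS⟩ : ∃ S : ℝ, S = ((univ.filter fun h : Fin k → Fin H => ncl (fun i => vw t H n (h i)) ≤ m).card : ℝ) := ⟨_, rfl⟩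
  rw [← hS] at h2
  have hS2 : S ≤ 1 / 2 * (H : ℝ) ^ k := by
    have hek : 0 < ε * k := by linarith
    have h3 : ε * k * S ≤ ε * k * (1 / 2 * (H : ℝ) ^ k) := by
      refine h2.trans ?_
      have : ((m : ℝ) + 1) * (H : ℝ) ^ k ≤ (ε * k / 2) * (H : ℝ) ^ k := by
        apply mul_le_mul_of_nonneg_right _ hH0.le
        linarith
      linarith
    exact le_of_mul_le_mul_left h3 hek
  have h4 : (H : ℝ) ^ k - S = ∑ g : Fin k → Fin H, id1 (¬ (ncl (fun i => vw t H n (g i)) ≤ m)) := by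
    rw [sum_id1, hS, ← card_fun]
    have := card_filter_add_card_filter_not (s := (univ : Finset (Fin k → Fin H))) (fun h => ncl (fun i => vw t H n (h i)) ≤ m)
    have h5 : ((univ : Finset (Fin k → Fin H)).card : ℝ) = ((univ.filter fun h : Fin k → Fin H => ncl (fun i => vw t H n (h i)) ≤ m).card : ℝ) +
      ((univ.filter fun h : Fin k → Fin H => ¬ ncl (fun i => vw t H n (h i)) ≤ m).card : ℝ) := by exact_mod_cast this.symm
    linarith
  refine le_trans (by linarith) (h4.le.trans ?_)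
  apply sum_le_sum
  intro g _
  apply id1_mono
  intro hg
  rw [ncl_T]
  have h6 : m + 1 ≤ ncl (Fin.cons (T^[t] n) (fun i => vw t H n (g i)) : Fin (k + 1) → ℤ) := by
    have := ncl_le_cons (T^[t] n) (fun i => vw t H n (g i))
    omega
  have h7 : ((m : ℝ) + 1) ≤ (ncl (Fin.cons (T^[t] n) (fun i => vw t H n (g i)) : Fin (k + 1) → ℤ) : ℝ) := by exact_mod_cast h6
  linarith

/-- few values are enough -/
theorem lo_point (h1 : S_SA2) {H k t : ℕ} {n : ℤ} {ε M thr : ℝ}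
    (hk : ε * k ≤ 1 / 2) (hthr : M + 1 ≤ thr)
    (hB : ∃ V : Finset ℤ, (V.card : ℝ) < M ∧ ((univ.filter fun h => vw t H n h ∉ V).card : ℝ) ≤ ε * H) :
    1 / 2 * (H : ℝ) ^ k ≤ ∑ g : Fin k → Fin H, id1 ((ncl (fun i => T^[t] ((Fin.cons n (fun i => n + 1 + ((g i : ℕ) : ℤ)) : Fin (k + 1) → ℤ) i)) : ℝ) ≤ thr) := by
  obtain ⟨V, hV1, hV2⟩ := hB
  have h2 := h1 H k V.card ε (vw t H n) V le_rfl hV2
  have hH0 : (0 : ℝ) ≤ (H : ℝ) ^ k := by positivity
  obtain ⟨S, hS⟩ : ∃ S : ℝ, S = ((univ.filter fun h : Fin k → Fin H => V.card < ncl (fun i => vw t H n (h i))).card : ℝ) := ⟨_, rfl⟩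
  rw [← hS] at h2
  have hS2 : S ≤ 1 / 2 * (H : ℝ) ^ k := by
    refine h2.trans ?_
    apply mul_le_mul_of_nonneg_right _ hH0
    linarith
  have h4 : (H : ℝ) ^ k - S = ∑ g : Fin k → Fin H, id1 (¬ (V.card < ncl (fun i => vw t H n (g i)))) := by
    rw [sum_id1, hS, ← card_fun]
    have := card_filter_add_card_filter_not (s := (univ : Finset (Fin k → Fin H))) (fun h => V.card < ncl (fun i => vw t H n (h i)))
    have h5 : ((univ : Finset (Fin k → Fin H)).card : ℝ) = ((univ.filter fun h : Fin k → Fin H => V.card < ncl (fun i => vw t H n (h i))).card : ℝ) +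
      ((univ.filter fun h : Fin k → Fin H => ¬ V.card < ncl (fun i => vw t H n (h i))).card : ℝ) := by exact_mod_cast this.symm
    linarith
  refine le_trans (by linarith) (h4.le.trans ?_)
  apply sum_le_sum
  intro g _
  apply id1_mono
  intro hg
  rw [ncl_T]
  have h6 : ncl (Fin.cons (T^[t] n) (fun i => vw t H n (g i)) : Fin (k + 1) → ℤ) ≤ V.card + 1 := by
    have := ncl_cons_le (T^[t] n) (fun i => vw t H n (g i))
    omega
  have h7 : (ncl (Fin.cons (T^[t] n) (fun i => vw t H n (g i)) : Fin (k + 1) → ℤ) : ℝ) ≤ (V.card : ℝ) + 1 := by exact_mod_cast h6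
  linarith

/-- from the model to the integers -/
theorem count_bad {k N H t s : ℕ} (hH : 1 ≤ H) (x : ℤ) {δ : ℝ} (P : ℕ → Prop)
    (hw : ∀ f : (Fin (k + 1) → ℝ) → (Fin (k + 1) → Fin (k + 1) → Prop) → ℝ, Adm f →
      |wm k N H x (obT f t) - J4H26.KT.iw (J4H26.KT.cw (fW f (t : ℕ)) (t - s)) s (fun _ => 0)| ≤ δ)
    (hm : iw (cw (fun y : Fin (k + 1) → ℤ => id1 (P (ncl y))) (t - s)) s (fun _ => 0) ≤ δ)
    (B : ℤ → Prop) [DecidablePred B]
    (hB : ∀ n, B n → 1 / 2 * (H : ℝ) ^ k ≤ ∑ g : Fin k → Fin H,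
      id1 (P (ncl (fun i => T^[t] ((Fin.cons n (fun i => n + 1 + ((g i : ℕ) : ℤ)) : Fin (k + 1) → ℤ) i))))) :
    ((univ.filter fun v : Fin N => B (x + ((v : ℕ) : ℤ))).card : ℝ) ≤ 4 * δ * N := by
  have h1 := hw (tf (k + 1) P) (tf_adm _ _)
  have e1 : J4H26.KT.iw (J4H26.KT.cw (fW (tf (k + 1) P) (t : ℕ)) (t - s)) s (fun _ => 0) =
      iw (cw (fun y : Fin (k + 1) → ℤ => id1 (P (ncl y))) (t - s)) s (fun _ => 0) := by
    rw [iw_eq, tf_fW]
    congr 1
    funext z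
    exact (cw_eq _ _ z).symm
  rw [e1] at h1
  have h2 := bad_le (K := k) (N := N) hH x (F := obT (tf (k + 1) P) t) (fun U => by rw [tf_ob]; exact id1_nonneg _) (c := 1 / 2) B
    (by
      intro n hn
      simp only [tf_ob]
      exact hB n hn)
  have h3 := (abs_le.1 h1).2
  have h4 : wm k N H x (obT (tf (k + 1) P) t) ≤ 2 * δ := by linarith
  have h5 : (N : ℝ) * wm k N H x (obT (tf (k + 1) P) t) ≤ N * (2 * δ) := mul_le_mul_of_nonneg_left h4 (Nat.cast_nonneg N)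
  linarith

end Pool.Agent.J4H39.SC
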