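import Mathlib
import Pool.Agent.J4H39.SC.T2
import Pool.Agent.J4H39.Z5

set_option autoImplicit false

/-! Project SC: the theorem for the integers, assembly. -/

namespace Pool.Agent.J4H39.SC

open Finset Filter Real
open Pool.Agent.J4H26.KT (Adm fW obT wm Tp mnK_sum window_law)

theorem params {κ η : ℝ} (hκ : 0 ≤ κ) (hη : 0 < η) (k₁ k₂ : ℕ) : ∃ L₀ : ℝ, 1 ≤ L₀ ∧ ∀ L ≥ L₀,
    (∃ k : ℕ, k₁ ≤ k + 1 ∧ 2 * ((κ + η) * √ L + 1) ≤ Real.exp (-L) * k ∧
      (κ + η / 2) * √ (Real.log ((k + 1 : ℕ) : ℝ)) ≤ (κ + η) * √ L) ∧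
    ∃ k : ℕ, k₂ ≤ k + 1 ∧ Real.exp (-L) * k ≤ 1 / 2 ∧
      (0 < κ - η → (κ - η) * √ L + 1 ≤ (κ - η / 2) * √ (Real.log ((k + 1 : ℕ) : ℝ))) := by
  obtain ⟨a, ha⟩ : ∃ a, a = η / (4 * κ + 4 * η) := ⟨_, rfl⟩
  have ha0 : 0 < a := by rw [ha]; positivity
  have ha1 : a ≤ 1 / 4 := by
    rw [ha, div_le_iff₀ (by positivity)]
    linarith
  have ha2 : a * (κ + η) = η / 4 := by
    rw [ha]; field_simp
  have haκ : a * κ ≤ η / 4 := by nlinarith
  -- eventual conditions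
  have e1 : ∀ᶠ L : ℝ in atTop, 2 * ((κ + η) * √ L + 1) ≤ Real.exp (a * L) := by
    have h1 : Tendsto (fun L : ℝ => Real.exp (a * L) / L) atTop atTop := by
      have h2 := (Real.tendsto_exp_div_pow_atTop 1).comp (tendsto_id.const_mul_atTop ha0)
      have h3 := h2.const_mul_atTop ha0
      refine h3.congr' ?_
      filter_upwards [eventually_gt_atTop 0] with L hL
      simp only [Function.comp_apply, id_eq, pow_one]
      field_simp
    filter_upwards [h1.eventually_ge_atTop (2 * (κ + η) + 2), eventually_ge_atTop 1] with L h2 h3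
    have hL0 : 0 < L := by linarith
    rw [le_div_iff₀ hL0] at h2
    have h4 : √ L ≤ L := by
      rw [Real.sqrt_le_left (by linarith)]
      nlinarith
    have h5 : (κ + η) * √ L ≤ (κ + η) * L := mul_le_mul_of_nonneg_left h4 (by linarith)
    nlinarith
  obtain ⟨L₁, hL₁⟩ := eventually_atTop.1 e1
  refine ⟨max (max (max L₁ (k₁ : ℝ)) (2 * k₂ + 1)) (max (max (3 / a) ((4 / η) ^ 2)) 1), le_max_of_le_right (le_max_right _ _), ?_⟩
  intro L hL
  simp only [ge_iff_le, max_le_iff] at hL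
  obtain ⟨⟨⟨g1, g2⟩, g3⟩, ⟨g4, g5⟩, g6⟩ := hL
  have hL0 : 0 < L := by linarith
  have hA := hL₁ L g1
  rw [div_le_iff₀ ha0] at g4
  have hexp1 : Real.exp (-L) * Real.exp ((1 + a) * L) = Real.exp (a * L) := by rw [← Real.exp_add]; ring_nf
  have hexp2 : Real.exp (-L) * Real.exp ((1 - a) * L) = Real.exp (-(a * L)) := by rw [← Real.exp_add]; ring_nf
  have hsL : 0 ≤ √ L := Real.sqrt_nonneg _
  constructor
  · refine ⟨⌈Real.exp ((1 + a) * L)⌉₊, ?_, ?_, ?_⟩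
    · have h1 : (k₁ : ℝ) ≤ ⌈Real.exp ((1 + a) * L)⌉₊ := by
        refine le_trans ?_ (Nat.le_ceil _)
        have := Real.add_one_le_exp ((1 + a) * L)
        nlinarith
      have : k₁ ≤ ⌈Real.exp ((1 + a) * L)⌉₊ := by exact_mod_cast h1
      omega
    · refine hA.trans ?_
      rw [← hexp1]
      exact mul_le_mul_of_nonneg_left (Nat.le_ceil _) (Real.exp_pos _).le
    · have h1 : ((⌈Real.exp ((1 + a) * L)⌉₊ + 1 : ℕ) : ℝ) ≤ Real.exp ((1 + 2 * a) * L) := by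
        push_cast
        have h2 := (Nat.ceil_lt_add_one (Real.exp_pos ((1 + a) * L)).le).le
        have h3 : Real.exp ((1 + 2 * a) * L) = Real.exp (a * L) * Real.exp ((1 + a) * L) := by rw [← Real.exp_add]; ring_nf
        have h4 : 3 ≤ Real.exp (a * L) := by
          have := Real.add_one_le_exp (a * L)
          linarith
        have h5 : 1 ≤ Real.exp ((1 + a) * L) := Real.one_le_exp (by positivity)
        rw [h3]
        nlinarith
      have h2 : Real.log ((⌈Real.exp ((1 + a) * L)⌉₊ + 1 : ℕ) : ℝ) ≤ (1 + 2 * a) * L := by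
        rw [← Real.log_exp ((1 + 2 * a) * L)]
        exact Real.log_le_log (by positivity) h1
      have h3 : √ (Real.log ((⌈Real.exp ((1 + a) * L)⌉₊ + 1 : ℕ) : ℝ)) ≤ (1 + a) * √ L := by
        refine (Real.sqrt_le_sqrt h2).trans ?_
        rw [Real.sqrt_mul (by positivity)]
        apply mul_le_mul_of_nonneg_right _ hsL
        rw [Real.sqrt_le_left (by positivity)]
        nlinarith
      refine (mul_le_mul_of_nonneg_left h3 (by positivity)).trans ?_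
      rw [← mul_assoc]
      apply mul_le_mul_of_nonneg_right _ hsL
      nlinarith
  · refine ⟨⌊Real.exp ((1 - a) * L)⌋₊, ?_, ?_, ?_⟩
    · have h1 : (k₂ : ℝ) ≤ ((⌊Real.exp ((1 - a) * L)⌋₊ + 1 : ℕ) : ℝ) := by
        push_cast
        have h2 := (Nat.lt_floor_add_one (Real.exp ((1 - a) * L))).le
        refine le_trans ?_ h2
        have := Real.add_one_le_exp ((1 - a) * L)
        nlinarith
      exact_mod_cast h1
    · have h1 : Real.exp (-L) * (⌊Real.exp ((1 - a) * L)⌋₊ : ℝ) ≤ Real.exp (-(a * L)) := by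
        rw [← hexp2]
        exact mul_le_mul_of_nonneg_left (Nat.floor_le (Real.exp_pos _).le) (Real.exp_pos _).le
      refine h1.trans ?_
      rw [Real.exp_neg]
      have h4 : 2 ≤ Real.exp (a * L) := by
        have := Real.add_one_le_exp (a * L)
        linarith
      rw [one_div]
      exact inv_anti₀ (by norm_num) h4
    · intro hκη
      have h1 : (1 - a) * L ≤ Real.log ((⌊Real.exp ((1 - a) * L)⌋₊ + 1 : ℕ) : ℝ) := by
        rw [← Real.log_exp ((1 - a) * L)]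
        apply Real.log_le_log (Real.exp_pos _)
        rw [Real.log_exp]
        push_cast
        exact (Nat.lt_floor_add_one _).le
      have h2 : (1 - a) * √ L ≤ √ (Real.log ((⌊Real.exp ((1 - a) * L)⌋₊ + 1 : ℕ) : ℝ)) := by
        refine le_trans ?_ (Real.sqrt_le_sqrt h1)
        rw [Real.sqrt_mul (by linarith)]
        apply mul_le_mul_of_nonneg_right _ hsL
        apply Real.le_sqrt_of_sq_le
        nlinarith
      have h3 : 1 ≤ η / 4 * √ L := by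
        have h4 : 4 / η ≤ √ L := Real.le_sqrt_of_sq_le g5
        rw [div_le_iff₀ hη] at h4
        linarith
      refine le_trans ?_ (mul_le_mul_of_nonneg_left h2 (by linarith))
      have h5 : (κ - 3 / 4 * η) * √ L ≤ (κ - η / 2) * ((1 - a) * √ L) := by
        rw [← mul_assoc]
        apply mul_le_mul_of_nonneg_right _ hsL
        nlinarith
      nlinarith

open Classical in
theorem main_int (hU : S_MUP) (hLo : S_MLO) (h1 : S_SA1) (h2 : S_SA2) {θ τ : ℝ} (hθ : 0 < θ) (hθ1 : θ < 1)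
    (hτθ : θ < τ * th0) (hτ1 : τ * th0 < 1) {η δ : ℝ} (hη : 0 < η) (hδ : 0 < δ) :
    ∃ ε₀ : ℝ, 0 < ε₀ ∧ ∀ ε : ℝ, 0 < ε → ε ≤ ε₀ → ∀ᶠ N : ℕ in atTop, ∀ x : ℤ,
      ((univ.filter fun v : Fin N => ¬ ∃ V : Finset ℤ, (V.card : ℝ) ≤ (√ (8 * (θ / (τ * th0 - θ)) / π) + η) * √ (Real.log (1 / ε)) ∧
        ((univ.filter fun h => vw (tN τ N) (HN θ N) (x + ((v : ℕ) : ℤ)) h ∉ V).card : ℝ) ≤ ε * HN θ N).card : ℝ) ≤ δ * N ∧
      ((univ.filter fun v : Fin N => ∃ V : Finset ℤ, (V.card : ℝ) < (√ (8 * (θ / (τ * th0 - θ)) / π) - η) * √ (Real.log (1 / ε)) ∧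
        ((univ.filter fun h => vw (tN τ N) (HN θ N) (x + ((v : ℕ) : ℤ)) h ∉ V).card : ℝ) ≤ ε * HN θ N).card : ℝ) ≤ δ * N := by
  obtain ⟨ρ, hρ⟩ : ∃ ρ, ρ = θ / (τ * th0 - θ) := ⟨_, rfl⟩
  have hρ0 : 0 < ρ := by rw [hρ]; exact div_pos hθ (by linarith)
  rw [← hρ]
  obtain ⟨κ, hκ⟩ : ∃ κ, κ = √ (8 * ρ / π) := ⟨_, rfl⟩
  have hκ0 : 0 ≤ κ := by rw [hκ]; exact Real.sqrt_nonneg _
  obtain ⟨k₁, hk₁⟩ := hU ρ (η / 2) (δ / 4) hρ0 (by positivity) (by positivity)
  obtain ⟨k₂, hk₂⟩ := hLo ρ (η / 2) (δ / 4) hρ0 (by positivity) (by positivity)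
  rw [← hκ] at hk₁ hk₂ ⊢
  obtain ⟨L₀, hL₀, hp⟩ := params hκ0 hη k₁ k₂
  refine ⟨Real.exp (-L₀), Real.exp_pos _, ?_⟩
  intro ε hε hεle
  obtain ⟨L, hL⟩ : ∃ L, L = Real.log (1 / ε) := ⟨_, rfl⟩
  have hεL : ε = Real.exp (-L) := by
    rw [hL, one_div, Real.log_inv, neg_neg, Real.exp_log hε]
  have hLL : L₀ ≤ L := by
    rw [hεL, Real.exp_le_exp] at hεle
    linarith
  have hL0 : 0 ≤ L := by linarith
  rw [← hL]
  obtain ⟨⟨k, a1, a2, a3⟩, k', b1, b2, b3⟩ := hp L hLL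
  obtain ⟨s₁, γ₁, hγ₁, c1⟩ := hk₁ (k + 1) a1
  obtain ⟨s₂, γ₂, hγ₂, c2⟩ := hk₂ (k' + 1) b1
  have hsL : 0 ≤ √ L := Real.sqrt_nonneg _
  filter_upwards [window_law t_CONT t_UNEQ k hθ hθ1 hτθ hτ1 (show 0 < δ / 4 by positivity),
    window_law t_CONT t_UNEQ k' hθ hθ1 hτθ hτ1 (show 0 < δ / 4 by positivity), close hθ hτθ s₁ hγ₁, close hθ hτθ s₂ hγ₂,
    (HN_tendsto hθ).eventually_ge_atTop 1] with N w1 w2 d1 d2 hH
  intro x
  rw [← hρ] at d1 d2
  obtain ⟨_, w1⟩ := w1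
  obtain ⟨_, w2⟩ := w2
  have hM0 : 0 ≤ (κ + η) * √ L := by positivity
  constructor
  · have m1 := c1 _ _ d1.1 d1.2
    have := count_bad (k := k) (N := N) (t := tN τ N) (s := tN (θ / th0) N) hH x (δ := δ / 4)
      (fun c : ℕ => (κ + η / 2) * √ (Real.log ((k + 1 : ℕ) : ℝ)) ≤ (c : ℝ)) (w1 x) m1
      (fun n => ¬ ∃ V : Finset ℤ, (V.card : ℝ) ≤ (κ + η) * √ L ∧
        ((univ.filter fun h => vw (tN τ N) (HN θ N) n h ∉ V).card : ℝ) ≤ ε * HN θ N)
      (fun n hn => up_point h1 hH hε hM0 (by rw [hεL]; exact a2) a3 hn)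
    refine this.trans (le_of_eq ?_)
    ring
  · rcases le_or_gt (κ - η) 0 with hκη | hκη
    · rw [filter_false_of_mem]
      · simp; positivity
      · rintro v - ⟨V, hV, -⟩
        have : (κ - η) * √ L ≤ 0 := mul_nonpos_of_nonpos_of_nonneg hκη hsL
        have h3 : (0 : ℝ) ≤ V.card := Nat.cast_nonneg _
        linarith
    · have m1 := c2 _ _ d2.1 d2.2
      have := count_bad (k := k') (N := N) (t := tN τ N) (s := tN (θ / th0) N) hH x (δ := δ / 4)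
        (fun c : ℕ => (c : ℝ) ≤ (κ - η / 2) * √ (Real.log ((k' + 1 : ℕ) : ℝ))) (w2 x) m1
        (fun n => ∃ V : Finset ℤ, (V.card : ℝ) < (κ - η) * √ L ∧
          ((univ.filter fun h => vw (tN τ N) (HN θ N) n h ∉ V).card : ℝ) ≤ ε * HN θ N)
        (fun n hn => lo_point h2 (by rw [hεL]; exact b2) (b3 hκη) hn)
      refine this.trans (le_of_eq ?_)
      ring

end Pool.Agent.J4H39.SC
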